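import Mathlib

/-!
# Bad pairs in geodesic-ray orientations force infinite strong metric dimension

We prove: if `G` is a connected graph such that for every nonempty finite `W` the orientation
`G_W` has a bad pair, then `G` has no finite strong resolving set.
-/

namespace Pool.Agent.Results.MP_dec24c_co.NoFiniteResolvingSet

open SimpleGraph

universe u

/-- A geodesic ray: a one-way infinite path, all of whose finite subpaths are shortest paths. -/
structure IsGeodesicRay {V : Type u} (G : SimpleGraph V) (r : ℕ → V) : Prop where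
  inj : Function.Injective r
  adj : ∀ n, G.Adj (r n) (r (n + 1))
  geod : ∀ m n, m ≤ n → G.dist (r m) (r n) = n - m

/-- A geodesic `W`-ray: a geodesic ray whose initial vertex lies in `W`. -/
def IsGeodesicWRay {V : Type u} (G : SimpleGraph V) (W : Set V) (r : ℕ → V) : Prop :=
  IsGeodesicRay G r ∧ r 0 ∈ W

/-- The edge `u v` is directed `u → v` in the orientation `G_W`. -/
def Directed {V : Type u} (G : SimpleGraph V) (W : Set V) (u v : V) : Prop :=
  G.Adj u v ∧
    (∃ r, IsGeodesicWRay G W r ∧ u ∈ Set.range r ∧ v ∈ Set.range r) ∧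
    ∀ r, IsGeodesicWRay G W r → u ∈ Set.range r → v ∈ Set.range r →
      ∃ n, r n = u ∧ r (n + 1) = v

/-- The edge `u v` stays undirected in the orientation `G_W`. -/
def Undirected {V : Type u} (G : SimpleGraph V) (W : Set V) (u v : V) : Prop :=
  G.Adj u v ∧ ¬ Directed G W u v ∧ ¬ Directed G W v u

/-- One may step from `u` to `v` in `G_W`. -/
def Step {V : Type u} (G : SimpleGraph V) (W : Set V) (u v : V) : Prop :=
  Directed G W u v ∨ Undirected G W u v

/-- There is a path from `u` to `v` (of distinct vertices) in `G_W`. -/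
def HasPath {V : Type u} (G : SimpleGraph V) (W : Set V) (u v : V) : Prop :=
  ∃ (k : ℕ) (x : Fin (k + 1) → V), Function.Injective x ∧ x 0 = u ∧ x (Fin.last k) = v ∧
    ∀ i : Fin k, Step G W (x i.castSucc) (x i.succ)

/-- `u, v` is a bad pair in `G_W`. -/
def IsBadPair {V : Type u} (G : SimpleGraph V) (W : Set V) (u v : V) : Prop :=
  u ≠ v ∧ ¬ HasPath G W u v ∧ ¬ HasPath G W v u

/-- `w` strongly resolves `u` and `v`. -/
def StronglyResolves {V : Type u} (G : SimpleGraph V) (w u v : V) : Prop :=
  G.dist w v = G.dist w u + G.dist u v ∨ G.dist w u = G.dist w v + G.dist v u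

/-- `S` is a strong resolving set of `G`. -/
def IsStrongResolvingSet {V : Type u} (G : SimpleGraph V) (S : Set V) : Prop :=
  ∀ u v, u ≠ v → ∃ w ∈ S, StronglyResolves G w u v

/-- The strong metric dimension `β_S(G)`, with value `⊤` if there is no finite strong resolving
set. -/
noncomputable def strongMetricDim {V : Type u} (G : SimpleGraph V) : ℕ∞ :=
  ⨅ (S : Set V) (_ : IsStrongResolvingSet G S), S.encard

section Aux

variable {V : Type u} {G : SimpleGraph V}

/-- Geodesic paths as functions. -/
theorem exists_geodesic (hG : G.Connected) (u v : V) :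
    ∃ g : ℕ → V, g 0 = u ∧ g (G.dist u v) = v ∧ (∀ i < G.dist u v, G.Adj (g i) (g (i + 1))) := by
  obtain ⟨p, hp⟩ := hG.exists_walk_length_eq_dist u v
  refine ⟨p.getVert, p.getVert_zero, ?_, ?_⟩
  · rw [← hp]; exact p.getVert_length
  · intro i hi
    exact p.adj_getVert_succ (by omega)

theorem dist_le_of_adj (hG : G.Connected) {r : ℕ → V} {a b : ℕ} (hab : a ≤ b)
    (h : ∀ i, a ≤ i → i < b → G.Adj (r i) (r (i + 1))) : G.dist (r a) (r b) ≤ b - a := by
  induction b, hab using Nat.le_induction with
  | base => simp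
  | succ n hn ih =>
    have h1 := ih (fun i hi hi' => h i hi (by omega))
    have h2 : G.dist (r n) (r (n + 1)) = 1 := dist_eq_one_iff_adj.mpr (h n hn (by omega))
    have h3 := hG.dist_triangle (u := r a) (v := r n) (w := r (n + 1))
    omega

/-- An adjacency sequence along which the distance to some `w` grows by one at each step is a
geodesic ray. -/
theorem ray_of_type (hG : G.Connected) {r : ℕ → V} (hadj : ∀ n, G.Adj (r n) (r (n + 1))) {w : V}
    (hw : ∀ n, G.dist w (r n) = G.dist w (r 0) + n) : IsGeodesicRay G r := by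
  refine ⟨?_, hadj, ?_⟩
  · intro m n hmn
    have h1 := hw m
    have h2 := hw n
    rw [hmn] at h1
    omega
  · intro m n hmn
    have h1 := dist_le_of_adj hG hmn (fun i _ _ => hadj i)
    have h2 := hw m
    have h3 := hw n
    have h4 := hG.dist_triangle (u := w) (v := r m) (w := r n)
    omega

/-- Every geodesic ray has a type. -/
theorem type_of_ray (hG : G.Connected) {S : Finset V} (hS : IsStrongResolvingSet G (S : Set V))
    {r : ℕ → V} (hr : IsGeodesicRay G r) :
    ∃ w ∈ S, ∀ n, G.dist w (r n) = G.dist w (r 0) + n := by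
  classical
  by_contra hcon
  push Not at hcon
  choose! f hf using hcon
  -- bound
  set N := S.sup f + S.sup (fun w => G.dist w (r 0)) + 1 with hN
  obtain ⟨w, hwS, hw⟩ := hS (r 0) (r N) (fun h => by
    have := hr.inj h
    omega)
  have hwS' : w ∈ S := by simpa using hwS
  have h1 : f w ≤ S.sup f := Finset.le_sup hwS'
  have h2 : G.dist w (r 0) ≤ S.sup (fun w => G.dist w (r 0)) :=
    Finset.le_sup (f := fun w => G.dist w (r 0)) hwS'
  have h3 : G.dist (r 0) (r N) = N := by simpa using hr.geod 0 N (Nat.zero_le _)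
  have h3' : G.dist (r N) (r 0) = N := by rw [dist_comm]; exact h3
  rcases hw with hw | hw
  · have h4 := hG.dist_triangle (u := w) (v := r (f w)) (w := r N)
    have h5 := hr.geod (f w) N (by omega)
    have h6 := hG.dist_triangle (u := w) (v := r 0) (w := r (f w))
    have h7 : G.dist (r 0) (r (f w)) = f w := by simpa using hr.geod 0 (f w) (Nat.zero_le _)
    have h8 := hf w hwS'
    omega
  · omega

/-- `s` is the shift of `z` by `m`. -/
def Sh (G : SimpleGraph V) (S : Finset V) (m : ℕ) (z s : V) : Prop :=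
  ∀ w ∈ S, G.dist w s = G.dist w z + m

theorem sh_dist {S : Finset V} (hS : IsStrongResolvingSet G (S : Set V))
    (hne : S.Nonempty) {m : ℕ} {z s : V} (h : Sh G S m z s) : G.dist z s = m := by
  by_cases hzs : z = s
  · subst hzs
    obtain ⟨w, hw⟩ := hne
    have := h w hw
    simp
    omega
  · obtain ⟨w, hwS, hw⟩ := hS z s hzs
    have h1 := h w (by simpa using hwS)
    have h2 : G.dist s z = G.dist z s := dist_comm
    rcases hw with hw | hw <;> omega

theorem sh_unique (hG : G.Connected) {S : Finset V} (hS : IsStrongResolvingSet G (S : Set V))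
    (hne : S.Nonempty) {m : ℕ} {z s s' : V} (h : Sh G S m z s) (h' : Sh G S m z s') : s = s' := by
  have h0 : Sh G S 0 s s' := fun w hw => by
    have := h w hw; have := h' w hw; omega
  have := sh_dist hS hne h0
  exact (hG.dist_eq_zero_iff).mp this

theorem sh_between (hG : G.Connected) {S : Finset V} (hS : IsStrongResolvingSet G (S : Set V))
    (hne : S.Nonempty) {m : ℕ} {z s : V} (h : Sh G S m z s) {i : ℕ} (hi : i ≤ m) :
    ∃ x, Sh G S i z x := by
  have hd := sh_dist hS hne h
  obtain ⟨g, hg0, hgk, hgadj⟩ := exists_geodesic hG z s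
  rw [hd] at hgk hgadj
  refine ⟨g i, fun w hw => ?_⟩
  have h1 := dist_le_of_adj hG (Nat.zero_le i) (r := g) (fun j _ hj => hgadj j (by omega))
  have h2 := dist_le_of_adj hG hi (r := g) (fun j _ hj => hgadj j (by omega))
  rw [hg0] at h1
  rw [hgk] at h2
  have h3 := h w hw
  have h4 := hG.dist_triangle (u := w) (v := g i) (w := s)
  have h5 := hG.dist_triangle (u := w) (v := z) (w := g i)
  omega

/-- A vertex from which a straight ray starts. -/
def Inf (G : SimpleGraph V) (S : Finset V) (s : V) : Prop := ∀ n, ∃ t, Sh G S n s t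

theorem straight_ray (hG : G.Connected) {S : Finset V} (hS : IsStrongResolvingSet G (S : Set V))
    (hne : S.Nonempty) {s : V} (h : Inf G S s) :
    ∃ x : ℕ → V, x 0 = s ∧ (∀ n, G.Adj (x n) (x (n + 1))) ∧ ∀ n, Sh G S n s (x n) := by
  choose x hx using h
  refine ⟨x, ?_, ?_, hx⟩
  · exact sh_unique hG hS hne (hx 0) (fun w _ => by simp)
  · intro n
    have : Sh G S 1 (x n) (x (n + 1)) := fun w hw => by
      have := hx n w hw; have := hx (n + 1) w hw; omega
    exact dist_eq_one_iff_adj.mp (sh_dist hS hne this)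

/-- Concatenate a finite path with a ray. -/
theorem concat_ray (hG : G.Connected) {g x : ℕ → V} {k : ℕ}
    (hg : ∀ i < k, G.Adj (g i) (g (i + 1))) (hx : ∀ n, G.Adj (x n) (x (n + 1)))
    (hgx : g k = x 0) {w : V} (hwg : G.dist w (g k) = G.dist w (g 0) + k)
    (hwx : ∀ n, G.dist w (x n) = G.dist w (x 0) + n) :
    ∃ r : ℕ → V, IsGeodesicRay G r ∧ r 0 = g 0 ∧ (∀ i ≤ k, r i = g i) ∧
      (∀ i, r (k + i) = x i) := by
  refine ⟨fun n => if n ≤ k then g n else x (n - k), ?_, by simp, ?_, ?_⟩
  · apply ray_of_type hG (w := w)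
    · intro n
      by_cases h1 : n + 1 ≤ k
      · simp only [show n ≤ k by omega, h1, if_true]
        exact hg n (by omega)
      · by_cases h2 : n ≤ k
        · have h3 : n = k := by omega
          subst h3
          simp only [le_refl, if_true, show ¬ (n + 1 ≤ n) by omega, if_false]
          rw [hgx]
          have := hx 0
          simpa using this
        · simp only [h1, h2, if_false]
          have := hx (n - k)
          rwa [show n - k + 1 = n + 1 - k by omega] at this
    · intro n
      simp only [Nat.zero_le, if_true]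
      by_cases h2 : n ≤ k
      · simp only [h2, if_true]
        have h3 := dist_le_of_adj hG (Nat.zero_le n) (r := g) (fun j _ hj => hg j (by omega))
        have h4 := dist_le_of_adj hG h2 (r := g) (fun j _ hj => hg j (by omega))
        have h5 := hG.dist_triangle (u := w) (v := g 0) (w := g n)
        have h6 := hG.dist_triangle (u := w) (v := g n) (w := g k)
        omega
      · simp only [h2, if_false]
        have h3 := hwx (n - k)
        rw [← hgx] at h3
        omega
  · intro i hi
    simp [hi]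
  · intro i
    by_cases h : i = 0
    · subst h
      simp [hgx]
    · simp [h]

/-- `T z s`: some geodesic ray from `z` passes through `s`. -/
def T (G : SimpleGraph V) (z s : V) : Prop :=
  ∃ r : ℕ → V, IsGeodesicRay G r ∧ r 0 = z ∧ ∃ k, r k = s

theorem T_of_between (hG : G.Connected) {S : Finset V} (hS : IsStrongResolvingSet G (S : Set V))
    (hne : S.Nonempty) {z s : V} (h : Inf G S s) {w : V} (hw : w ∈ S)
    (hws : G.dist w s = G.dist w z + G.dist z s) : T G z s := by
  obtain ⟨x, hx0, hxadj, hxsh⟩ := straight_ray hG hS hne h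
  obtain ⟨g, hg0, hgk, hgadj⟩ := exists_geodesic hG z s
  obtain ⟨r, hr, hr0, hrg, -⟩ := concat_ray hG (w := w) hgadj hxadj (by rw [hgk, hx0])
    (by rw [hgk, hg0]; exact hws) (fun n => by rw [hx0]; exact hxsh n w hw)
  exact ⟨r, hr, by rw [hr0, hg0], _, by rw [hrg _ le_rfl, hgk]⟩

/-- Balls around a resolving vertex are finite. -/
theorem ball_finite (hG : G.Connected) {S : Finset V} (hS : IsStrongResolvingSet G (S : Set V))
    (w₁ : V) (N : ℕ) : {s : V | G.dist w₁ s ≤ N}.Finite := by
  classical
  let code : V → (S → ℕ) := fun s w => G.dist w s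
  have hinj : Set.InjOn code {s : V | G.dist w₁ s ≤ N} := by
    intro s _ t _ hst
    by_contra hne
    obtain ⟨w, hwS, hw⟩ := hS s t hne
    have h1 : G.dist w s = G.dist w t := congrFun hst ⟨w, by simpa using hwS⟩
    have h2 : G.dist s t = 0 := by
      have : G.dist t s = G.dist s t := dist_comm
      rcases hw with hw | hw <;> omega
    exact hne ((hG.dist_eq_zero_iff).mp h2)
  refine Set.Finite.of_finite_image ?_ hinj
  refine (Set.finite_Iic (fun w : S => G.dist w w₁ + N)).subset ?_
  rintro _ ⟨s, hs, rfl⟩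
  intro w
  have h1 := hG.dist_triangle (u := (w : V)) (v := w₁) (w := s)
  simp only [Set.mem_ofPred_eq] at hs
  show G.dist w s ≤ G.dist w w₁ + N
  omega

/-- The class of a vertex. -/
noncomputable def cl (G : SimpleGraph V) (S : Finset V) (w₁ s : V) : S → ℤ :=
  fun w => (G.dist w s : ℤ) - G.dist w₁ s

theorem cl_range_finite (hG : G.Connected) (S : Finset V) (w₁ : V) :
    (Set.range (cl G S w₁)).Finite := by
  classical
  refine (Set.finite_Icc (fun w : S => -(G.dist w w₁ : ℤ)) (fun w : S => (G.dist w w₁ : ℤ))).subset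
    ?_
  rintro _ ⟨s, rfl⟩
  constructor
  · intro w
    have h1 := hG.dist_triangle (u := w₁) (v := (w : V)) (w := s)
    have h2 : G.dist w₁ w = G.dist w w₁ := dist_comm
    simp only [cl]
    omega
  · intro w
    have h1 := hG.dist_triangle (u := (w : V)) (v := w₁) (w := s)
    simp only [cl]
    omega

theorem sh_of_cl {S : Finset V} {w₁ z s : V} (h : cl G S w₁ z = cl G S w₁ s)
    (hle : G.dist w₁ z ≤ G.dist w₁ s) : Sh G S (G.dist w₁ s - G.dist w₁ z) z s := by
  intro w hw
  have := congrFun h ⟨w, hw⟩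
  simp only [cl] at this
  omega

/-- All but finitely many vertices start a straight ray. -/
theorem notInf_finite (hG : G.Connected) {S : Finset V} (hS : IsStrongResolvingSet G (S : Set V))
    {w₁ : V} (hw₁ : w₁ ∈ S) : {s : V | ¬ Inf G S s}.Finite := by
  classical
  have hne : S.Nonempty := ⟨w₁, hw₁⟩
  refine Set.Finite.of_finite_fibers (cl G S w₁)
    ((cl_range_finite hG S w₁).subset (Set.image_subset_range _ _)) ?_
  rintro c ⟨s, hs, rfl⟩
  by_contra hinf
  have hinf : ({s : V | ¬ Inf G S s} ∩ cl G S w₁ ⁻¹' {cl G S w₁ s}).Infinite := hinf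
  apply hs
  intro n
  have hball := ball_finite hG hS w₁ (G.dist w₁ s + n)
  obtain ⟨t, ht, htb⟩ := hinf.exists_notMem_finite hball
  simp only [Set.mem_ofPred_eq, not_le] at htb
  have hcl : cl G S w₁ s = cl G S w₁ t := by
    have := ht.2
    simp only [Set.mem_preimage, Set.mem_singleton_iff] at this
    exact this.symm
  have hsh := sh_of_cl hcl (by omega)
  exact sh_between hG hS hne hsh (by omega)

/-- For every `v`, all but finitely many `s` lie on a geodesic ray from `v`. -/
theorem notT_finite (hG : G.Connected) {S : Finset V} (hS : IsStrongResolvingSet G (S : Set V))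
    {w₁ : V} (hw₁ : w₁ ∈ S) (v : V) : {s : V | ¬ T G v s}.Finite := by
  classical
  have hne : S.Nonempty := ⟨w₁, hw₁⟩
  set M := S.sup (fun w => G.dist w₁ w + G.dist w v) with hM
  refine ((notInf_finite hG hS hw₁).union (ball_finite hG hS w₁ M)).subset ?_
  intro s hs
  by_contra hcon
  simp only [Set.mem_union, Set.mem_ofPred_eq, not_or, not_not, not_le] at hcon hs
  obtain ⟨hI, hsM⟩ := hcon
  have hle : ∀ w ∈ S, G.dist w₁ w + G.dist w v ≤ M := fun w hw =>
    Finset.le_sup (f := fun w => G.dist w₁ w + G.dist w v) hw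
  have hvs : v ≠ s := by
    rintro rfl
    have := hle w₁ hw₁
    simp at this
    omega
  obtain ⟨w, hwS, hw⟩ := hS v s hvs
  have hwS' : w ∈ S := by simpa using hwS
  rcases hw with hw | hw
  · exact hs (T_of_between hG hS hne hI hwS' hw)
  · have h1 := hle w hwS'
    have h2 := hG.dist_triangle (u := w₁) (v := w) (w := s)
    omega

/-- `T`-closed sets. -/
def Closed (G : SimpleGraph V) (U : Set V) : Prop := ∀ v ∈ U, ∀ s, T G v s → s ∈ U

theorem closed_compl_finite (hG : G.Connected) {S : Finset V}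
    (hS : IsStrongResolvingSet G (S : Set V)) {w₁ : V} (hw₁ : w₁ ∈ S) {U : Set V}
    (hU : Closed G U) (hUne : U.Nonempty) : (Uᶜ).Finite := by
  obtain ⟨v, hv⟩ := hUne
  refine (notT_finite hG hS hw₁ v).subset ?_
  intro s hs hT
  exact hs (hU v hv s hT)

/-- The set of minimal representatives. -/
def Rep (G : SimpleGraph V) (S : Finset V) (w₁ : V) (U : Set V) : Set V :=
  {z | z ∈ U ∧ ∀ z' ∈ U, cl G S w₁ z' = cl G S w₁ z → G.dist w₁ z ≤ G.dist w₁ z'}

theorem rep_finite (hG : G.Connected) {S : Finset V} (hS : IsStrongResolvingSet G (S : Set V))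
    {w₁ : V} (hw₁ : w₁ ∈ S) (U : Set V) : (Rep G S w₁ U).Finite := by
  refine Set.Finite.of_finite_image
    ((cl_range_finite hG S w₁).subset (Set.image_subset_range _ (Rep G S w₁ U))) ?_
  intro z hz z' hz' h
  have h1 := hz.2 z' hz'.1 h.symm
  have h2 := hz'.2 z hz.1 h
  have h3 := sh_of_cl h h1
  have h4 := sh_dist hS ⟨w₁, hw₁⟩ h3
  exact (hG.dist_eq_zero_iff).mp (by omega)

theorem exists_rep {S : Finset V} {w₁ : V} {U : Set V} {z : V} (hz : z ∈ U) :
    ∃ z' ∈ Rep G S w₁ U, Sh G S (G.dist w₁ z - G.dist w₁ z') z' z := by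
  classical
  have hex : ∃ n, ∃ z' ∈ U, cl G S w₁ z' = cl G S w₁ z ∧ G.dist w₁ z' = n :=
    ⟨_, z, hz, rfl, rfl⟩
  obtain ⟨z', hz'U, hz'cl, hz'd⟩ := Nat.find_spec hex
  have hmin : ∀ y ∈ U, cl G S w₁ y = cl G S w₁ z → Nat.find hex ≤ G.dist w₁ y :=
    fun y hy hycl => Nat.find_min' hex ⟨y, hy, hycl, rfl⟩
  refine ⟨z', ⟨hz'U, fun y hy hycl => ?_⟩, ?_⟩
  · rw [hz'd]; exact hmin y hy (hycl.trans hz'cl)
  · exact sh_of_cl hz'cl (by rw [hz'd]; exact hmin z hz rfl)

/-- Reachability in the orientation. -/
def Reach (G : SimpleGraph V) (W : Set V) : V → V → Prop := Relation.ReflTransGen (Step G W)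

theorem step_of_not_directed {W : Set V} {a b : V} (hab : G.Adj a b)
    (h : ¬ Directed G W b a) : Step G W a b := by
  by_cases h1 : Directed G W a b
  · exact Or.inl h1
  · exact Or.inr ⟨hab, h1, h⟩

/-- Rays from a vertex of a closed set can be followed in the orientation given by the minimal
representatives. -/
theorem reach_of_T (hG : G.Connected) {S : Finset V} (hS : IsStrongResolvingSet G (S : Set V))
    {w₁ : V} (hw₁ : w₁ ∈ S) {U : Set V} {z s : V} (hz : z ∈ U) (hT : T G z s) :
    Reach G (Rep G S w₁ U) z s := by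
  obtain ⟨r, hr, hr0, k, hk⟩ := hT
  have hne : S.Nonempty := ⟨w₁, hw₁⟩
  obtain ⟨w, hw, hwr⟩ := type_of_ray hG hS hr
  obtain ⟨z', hz', hsh⟩ := exists_rep (G := G) (S := S) (w₁ := w₁) hz
  obtain ⟨g, hg0, hgk, hgadj⟩ := exists_geodesic hG z' z
  have hd := sh_dist hS hne hsh
  have hwg : G.dist w z = G.dist w z' + G.dist z' z := by rw [hd]; exact hsh w hw
  obtain ⟨q, hq, hq0, hqg, hqr⟩ := concat_ray hG (w := w) hgadj hr.adj (by rw [hgk, hr0])
    (by rw [hgk, hg0]; exact hwg) hwr
  have hqW : IsGeodesicWRay G (Rep G S w₁ U) q := ⟨hq, by rw [hq0, hg0]; exact hz'⟩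
  have hstep : ∀ n, Step G (Rep G S w₁ U) (r n) (r (n + 1)) := by
    intro n
    refine step_of_not_directed (hr.adj n) ?_
    rintro ⟨-, -, hall⟩
    obtain ⟨m, hm1, hm2⟩ := hall q hqW ⟨G.dist z' z + (n + 1), hqr _⟩ ⟨G.dist z' z + n, hqr _⟩
    have e1 : m = G.dist z' z + (n + 1) := hq.inj (by rw [hm1, hqr])
    have e2 : m + 1 = G.dist z' z + n := hq.inj (by rw [hm2, hqr])
    omega
  have hall : ∀ n, Reach G (Rep G S w₁ U) (r 0) (r n) := by
    intro n
    induction n with
    | zero => exact Relation.ReflTransGen.refl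
    | succ n ih => exact ih.tail (hstep n)
  have := hall k
  rwa [hr0, hk] at this

/-- Edges at a vertex outside a closed set are undirected. -/
theorem not_directed_outside {S : Finset V} {w₁ : V} {U : Set V} (hU : Closed G U) {p q : V}
    (h : p ∉ U ∨ q ∉ U) : ¬ Directed G (Rep G S w₁ U) p q := by
  rintro ⟨-, ⟨r, ⟨hr, hr0⟩, ⟨i, hi⟩, ⟨j, hj⟩⟩, -⟩
  have hmem : ∀ n, r n ∈ U := fun n => hU (r 0) hr0.1 (r n) ⟨r, hr, rfl, n, rfl⟩
  rcases h with h | h
  · exact h (hi ▸ hmem i)
  · exact h (hj ▸ hmem j)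

theorem step_outside {S : Finset V} {w₁ : V} {U : Set V} (hU : Closed G U) {p q : V}
    (hpq : G.Adj p q) (h : p ∉ U ∨ q ∉ U) : Step G (Rep G S w₁ U) p q :=
  step_of_not_directed hpq (not_directed_outside hU h.symm)

/-- From reachability to paths of distinct vertices. -/
theorem hasPath_of_reach {W : Set V} {u v : V} (h : Reach G W u v) : HasPath G W u v := by
  classical
  have hex : ∃ (k : ℕ) (x : ℕ → V), x 0 = u ∧ x k = v ∧ ∀ i < k, Step G W (x i) (x (i + 1)) := by
    induction h with
    | refl => exact ⟨0, fun _ => u, rfl, rfl, fun i hi => absurd hi (by omega)⟩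
    | tail _ hbc ih =>
      rename_i b c _
      obtain ⟨k, x, hx0, hxk, hx⟩ := ih
      refine ⟨k + 1, fun n => if n ≤ k then x n else c, by simp [hx0], by simp, ?_⟩
      intro i hi
      by_cases h1 : i + 1 ≤ k
      · simp only [show i ≤ k by omega, h1, if_true]
        exact hx i (by omega)
      · have h2 : i = k := by omega
        subst h2
        simp only [le_refl, if_true, show ¬ (i + 1 ≤ i) by omega, if_false, hxk]
        exact hbc
  set k := Nat.find hex with hk
  obtain ⟨x, hx0, hxk, hx⟩ := Nat.find_spec hex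
  have hmin : ∀ k' < k, ¬ ∃ x : ℕ → V, x 0 = u ∧ x k' = v ∧
      ∀ i < k', Step G W (x i) (x (i + 1)) := fun k' hk' => Nat.find_min hex hk'
  have hinj : ∀ i j, i < j → j ≤ k → x i ≠ x j := by
    intro i j hij hjk hxij
    refine hmin (k - (j - i)) (by omega) ⟨fun n => if n ≤ i then x n else x (n + (j - i)), ?_, ?_,
      ?_⟩
    · simp [hx0]
    · by_cases h1 : k - (j - i) ≤ i
      · have h2 : k = j := by omega
        have h3 : k - (j - i) = i := by omega
        simp only [h3, le_refl, if_true]
        rw [hxij, ← h2]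
        exact hxk
      · simp only [h1, if_false]
        rw [show k - (j - i) + (j - i) = k by omega]
        exact hxk
    · intro n hn
      by_cases h1 : n + 1 ≤ i
      · simp only [show n ≤ i by omega, h1, if_true]
        exact hx n (by omega)
      · by_cases h2 : n ≤ i
        · have h3 : n = i := by omega
          subst h3
          simp only [le_refl, if_true, show ¬ (n + 1 ≤ n) by omega, if_false]
          rw [hxij, show n + 1 + (j - n) = j + 1 by omega]
          exact hx j (by omega)
        · simp only [h1, h2, if_false]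
          rw [show n + 1 + (j - i) = n + (j - i) + 1 by omega]
          exact hx _ (by omega)
  refine ⟨k, fun i => x i, ?_, hx0, hxk, fun i => ?_⟩
  · intro i j hij
    rcases lt_trichotomy (i : ℕ) j with h1 | h1 | h1
    · exact absurd hij (hinj i j h1 (by have := j.2; omega))
    · exact Fin.ext h1
    · exact absurd hij.symm (hinj j i h1 (by have := i.2; omega))
  · have := hx i i.2
    simpa using this

theorem reach_of_reflTransGen_T (hG : G.Connected) {S : Finset V}
    (hS : IsStrongResolvingSet G (S : Set V)) {w₁ : V} (hw₁ : w₁ ∈ S) {U : Set V}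
    (hU : Closed G U) {z s : V} (hz : z ∈ U) (h : Relation.ReflTransGen (T G) z s) :
    s ∈ U ∧ Reach G (Rep G S w₁ U) z s := by
  induction h with
  | refl => exact ⟨hz, Relation.ReflTransGen.refl⟩
  | tail _ hbc ih =>
    exact ⟨hU _ ih.1 _ hbc, ih.2.trans (reach_of_T hG hS hw₁ ih.1 hbc)⟩

/-- Case A. -/
theorem caseA [Infinite V] (hG : G.Connected) {S : Finset V}
    (hS : IsStrongResolvingSet G (S : Set V)) {w₁ : V} (hw₁ : w₁ ∈ S) {K : Set V}
    (hK : K.Finite) (hA : ∀ U : Set V, Closed G U → U.Nonempty → (U ∩ K).Nonempty) :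
    ∃ U : Set V, Closed G U ∧ U.Nonempty ∧ ∀ u v, Reach G (Rep G S w₁ U) u v := by
  classical
  have hex : ∃ n, ∃ U : Set V, Closed G U ∧ U.Nonempty ∧ (U ∩ K).ncard = n :=
    ⟨_, Set.univ, fun _ _ _ _ => trivial, ⟨w₁, trivial⟩, rfl⟩
  obtain ⟨U₀, hU₀, hU₀ne, hU₀n⟩ := Nat.find_spec hex
  obtain ⟨s₀, hs₀U, hs₀K⟩ := hA U₀ hU₀ hU₀ne
  have hall : ∀ v, Relation.ReflTransGen (T G) v s₀ := by
    intro v
    set C : Set V := {s | Relation.ReflTransGen (T G) v s} with hC
    have hCcl : Closed G C := fun a ha b hb => Relation.ReflTransGen.tail ha hb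
    have hCne : C.Nonempty := ⟨v, Relation.ReflTransGen.refl⟩
    have hcl : Closed G (C ∩ U₀) := fun a ha b hb => ⟨hCcl a ha.1 b hb, hU₀ a ha.2 b hb⟩
    have hne : (C ∩ U₀).Nonempty := by
      have h1 := closed_compl_finite hG hS hw₁ hCcl hCne
      have h2 := closed_compl_finite hG hS hw₁ hU₀ hU₀ne
      obtain ⟨a, -, ha⟩ := (Set.infinite_univ (α := V)).exists_notMem_finite (h1.union h2)
      simp only [Set.mem_union, Set.mem_compl_iff, not_or, not_not] at ha
      exact ⟨a, ha⟩
    have hmin := Nat.find_min' hex ⟨C ∩ U₀, hcl, hne, rfl⟩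
    rw [← hU₀n] at hmin
    have hsub : C ∩ U₀ ∩ K ⊆ U₀ ∩ K := fun a ha => ⟨ha.1.2, ha.2⟩
    have heq := Set.eq_of_subset_of_ncard_le hsub hmin (hK.subset Set.inter_subset_right)
    have : s₀ ∈ C ∩ U₀ ∩ K := by rw [heq]; exact ⟨hs₀U, hs₀K⟩
    exact this.1.1
  set U : Set V := {s | Relation.ReflTransGen (T G) s₀ s} with hU
  have hUcl : Closed G U := fun a ha b hb => Relation.ReflTransGen.tail ha hb
  have hs₀ : s₀ ∈ U := Relation.ReflTransGen.refl
  have hin : ∀ u ∈ U, ∀ v ∈ U, Reach G (Rep G S w₁ U) u v := fun u hu v hv =>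
    (reach_of_reflTransGen_T hG hS hw₁ hUcl hu (hall u)).2.trans
      (reach_of_reflTransGen_T hG hS hw₁ hUcl hs₀ hv).2
  have hadj : ∀ a b, G.Adj a b → Reach G (Rep G S w₁ U) a b := by
    intro a b hab
    by_cases h : a ∉ U ∨ b ∉ U
    · exact Relation.ReflTransGen.single (step_outside hUcl hab h)
    · simp only [not_or, not_not] at h
      exact hin a h.1 b h.2
  refine ⟨U, hUcl, ⟨s₀, hs₀⟩, fun u v => ?_⟩
  obtain ⟨p⟩ := hG.preconnected u v
  induction p with
  | nil => exact Relation.ReflTransGen.refl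
  | cons h _ ih => exact (hadj _ _ h).trans ih

theorem exists_pred (hG : G.Connected) {u v : V} {k : ℕ} (h : G.dist u v = k + 1) :
    ∃ x, G.dist u x = k ∧ G.Adj x v := by
  obtain ⟨g, hg0, hgk, hgadj⟩ := exists_geodesic hG u v
  rw [h] at hgk hgadj
  refine ⟨g k, ?_, ?_⟩
  · have h1 := dist_le_of_adj hG (Nat.zero_le k) (r := g) (fun j _ hj => hgadj j (by omega))
    have h2 : G.dist (g k) (g (k + 1)) = 1 := dist_eq_one_iff_adj.mpr (hgadj k (by omega))
    have h3 := hG.dist_triangle (u := u) (v := g k) (w := v)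
    rw [hg0] at h1
    rw [hgk] at h2
    omega
  · have := hgadj k (by omega)
    rwa [hgk] at this

/-- Case B. -/
theorem caseB (hG : G.Connected) {S : Finset V}
    (hS : IsStrongResolvingSet G (S : Set V)) {w₁ : V} (hw₁ : w₁ ∈ S) {N : ℕ}
    (hN : ∀ s, ¬ Inf G S s → G.dist w₁ s ≤ N) {U : Set V} (hU : Closed G U)
    (hdisj : ∀ s ∈ U, N < G.dist w₁ s) :
    ∀ u v, Reach G (Rep G S w₁ U) u v ∨ Reach G (Rep G S w₁ U) v u := by
  classical
  have hne : S.Nonempty := ⟨w₁, hw₁⟩
  have hInf : ∀ s, N < G.dist w₁ s → Inf G S s := by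
    intro s hs
    by_contra h
    have := hN s h
    omega
  -- from `w₁` everything can be reached
  have hfrom : ∀ k v, G.dist w₁ v = k → Reach G (Rep G S w₁ U) w₁ v := by
    intro k
    induction k with
    | zero =>
      intro v hv
      rw [(hG.dist_eq_zero_iff).mp hv]
      exact Relation.ReflTransGen.refl
    | succ k ih =>
      intro v hv
      obtain ⟨x, hx, hxv⟩ := exists_pred hG hv
      refine (ih x hx).trans ?_
      by_cases h : x ∉ U ∨ v ∉ U
      · exact Relation.ReflTransGen.single (step_outside hU hxv h)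
      · simp only [not_or, not_not] at h
        refine reach_of_T hG hS hw₁ h.1 (T_of_between hG hS hne (hInf v (hdisj v h.2)) hw₁ ?_)
        rw [hv, hx, dist_eq_one_iff_adj.mpr hxv]
  have hto : ∀ k p, G.dist w₁ p = k → p ∉ U → Reach G (Rep G S w₁ U) p w₁ := by
    intro k
    induction k with
    | zero =>
      intro v hv _
      rw [(hG.dist_eq_zero_iff).mp hv]
      exact Relation.ReflTransGen.refl
    | succ k ih =>
      intro v hv hvU
      obtain ⟨x, hx, hxv⟩ := exists_pred hG hv
      have hxU : x ∉ U := by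
        intro hxU
        by_cases hvN : N < G.dist w₁ v
        · refine hvU (hU x hxU v (T_of_between hG hS hne (hInf v hvN) hw₁ ?_))
          rw [hv, hx, dist_eq_one_iff_adj.mpr hxv]
        · have := hdisj x hxU
          omega
      exact Relation.ReflTransGen.head (step_outside hU hxv.symm (Or.inl hvU)) (ih x hx hxU)
  intro u v
  by_cases hu : u ∈ U
  · by_cases hv : v ∈ U
    · by_cases huv : u = v
      · subst huv
        exact Or.inl Relation.ReflTransGen.refl
      · obtain ⟨w, hwS, hw⟩ := hS u v huv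
        have hwS' : w ∈ S := by simpa using hwS
        rcases hw with hw | hw
        · exact Or.inl (reach_of_T hG hS hw₁ hu (T_of_between hG hS hne (hInf v (hdisj v hv))
            hwS' hw))
        · exact Or.inr (reach_of_T hG hS hw₁ hv (T_of_between hG hS hne (hInf u (hdisj u hu))
            hwS' hw))
    · exact Or.inr ((hto _ v rfl hv).trans (hfrom _ u rfl))
  · exact Or.inl ((hto _ u rfl hu).trans (hfrom _ v rfl))

/-- A connected graph with a finite strong resolving set has a nonempty finite `W` without bad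
pairs. -/
theorem core (hG : G.Connected) {S : Finset V} (hS : IsStrongResolvingSet G (S : Set V)) :
    ∃ W : Set V, W.Finite ∧ W.Nonempty ∧ ∀ u v, ¬ IsBadPair G W u v := by
  classical
  obtain ⟨v₀⟩ := hG.nonempty
  rcases finite_or_infinite V with hfin | hinf
  · -- finite graphs have no rays
    refine ⟨{v₀}, Set.finite_singleton _, Set.singleton_nonempty _, fun u v hbad => hbad.2.1 ?_⟩
    apply hasPath_of_reach
    have hadj : ∀ a b, G.Adj a b → Step G {v₀} a b := by
      intro a b hab
      refine step_of_not_directed hab ?_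
      rintro ⟨-, ⟨r, ⟨hr, -⟩, -⟩, -⟩
      exact not_injective_infinite_finite r hr.inj
    obtain ⟨p⟩ := hG.preconnected u v
    clear hbad
    induction p with
    | nil => exact Relation.ReflTransGen.refl
    | cons h _ ih => exact Relation.ReflTransGen.head (hadj _ _ h) ih
  · have hSne : S.Nonempty := by
      obtain ⟨a, b, hab⟩ := exists_pair_ne V
      obtain ⟨w, hw, -⟩ := hS a b hab
      exact ⟨w, by simpa using hw⟩
    obtain ⟨w₁, hw₁⟩ := hSne
    have hX := notInf_finite hG hS hw₁
    obtain ⟨N, hN⟩ : ∃ N, ∀ s, ¬ Inf G S s → G.dist w₁ s ≤ N := by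
      obtain ⟨N, hN⟩ := (hX.image (G.dist w₁)).bddAbove
      exact ⟨N, fun s hs => hN ⟨s, hs, rfl⟩⟩
    have hrepne : ∀ U : Set V, U.Nonempty → (Rep G S w₁ U).Nonempty := by
      rintro U ⟨z, hz⟩
      obtain ⟨z', hz', -⟩ := exists_rep (G := G) (S := S) (w₁ := w₁) hz
      exact ⟨z', hz'⟩
    by_cases hA : ∀ U : Set V, Closed G U → U.Nonempty → (U ∩ {s | G.dist w₁ s ≤ N}).Nonempty
    · obtain ⟨U, -, hUne, hreach⟩ := caseA hG hS hw₁ (ball_finite hG hS w₁ N) hA
      exact ⟨Rep G S w₁ U, rep_finite hG hS hw₁ U, hrepne U hUne,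
        fun u v hbad => hbad.2.1 (hasPath_of_reach (hreach u v))⟩
    · push Not at hA
      obtain ⟨U, hUcl, hUne, hUK⟩ := hA
      have hdisj : ∀ s ∈ U, N < G.dist w₁ s := by
        intro s hs
        by_contra hcon
        have : s ∈ U ∩ {s | G.dist w₁ s ≤ N} := ⟨hs, by simpa using hcon⟩
        rw [hUK] at this
        exact this
      have hreach := caseB hG hS hw₁ hN hUcl hdisj
      refine ⟨Rep G S w₁ U, rep_finite hG hS hw₁ U, hrepne U hUne, fun u v hbad => ?_⟩
      rcases hreach u v with h | h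
      · exact hbad.2.1 (hasPath_of_reach h)
      · exact hbad.2.2 (hasPath_of_reach h)

end Aux

/-- **Main result.** If `G` is a connected graph such that for every nonempty finite `W` the
orientation `G_W` contains a bad pair, then `G` has infinite strong metric dimension. -/
theorem result {V : Type u} (G : SimpleGraph V) (hG : G.Connected)
    (hbad : ∀ W : Set V, W.Finite → W.Nonempty → ∃ u v, IsBadPair G W u v) :
    strongMetricDim G = ⊤ := by
  unfold strongMetricDim
  simp only [iInf_eq_top]
  intro S hS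
  by_contra hfin
  have hSf : S.Finite := Set.encard_ne_top_iff.mp hfin
  obtain ⟨W, hW, hWne, hno⟩ := core hG (S := hSf.toFinset) (by simpa using hS)
  obtain ⟨u, v, huv⟩ := hbad W hW hWne
  exact hno u v huv

end Pool.Agent.Results.MP_dec24c_co.NoFiniteResolvingSet
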